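import Mathlib
import Pool.Agent.Helper324_CC.RealCC
import Pool.Agent.Y509.CCyc.Norm

set_option autoImplicit false

open Filter Topology ContinuousLinearMap

namespace Pool.Agent.Results.MP_8292e8_an.EverySeparableSpace

/-- `T` is convex-cyclic: some orbit `{x, T x, T ^ 2 x, ...}` has a dense convex hull (the set of
all finite convex combinations of orbit points). -/
def ConvexCyclic {𝕜 X : Type*} [NormedField 𝕜] [NormedAddCommGroup X] [NormedSpace 𝕜 X]
    [Module ℝ X] (T : X →L[𝕜] X) : Prop :=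
  ∃ x : X, Dense (convexHull ℝ (Set.range fun n : ℕ => (T ^ n) x))

open Pool.Agent.Helper324_CC

lemma real_case (X : Type*) [NormedAddCommGroup X] [NormedSpace ℝ X] [CompleteSpace X]
    [TopologicalSpace.SeparableSpace X] [Nontrivial X] :
    ∃ S : X →L[ℝ] X, ConvexCyclic S ∧ ¬ ConvexCyclic (S ^ 2) := by
  obtain ⟨S, x, g, hS, hg, hgS, hx⟩ := exists_cyclic_ker ℝ X
  refine ⟨TR S, ⟨x, cc_of_cyc_real hS x hx⟩, ?_⟩
  rintro ⟨y, hy⟩
  have h1 : ∀ z, g (TR S z) = -100 * g z := by
    intro z
    have : TR S z = -((100 : ℝ) • z + S z) := rfl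
    rw [this, map_neg, map_add, map_smul, hgS, smul_eq_mul]
    ring
  have h2 : ∀ z, g ((TR S ^ 2) z) = 10000 * g z := by
    intro z
    rw [pow_two, mul_apply_eq_comp, h1, h1]
    ring
  have h3 : ∀ n : ℕ, g (((TR S ^ 2) ^ n) y) = 10000 ^ n * g y := by
    intro n
    induction n with
    | zero => simp
    | succ n ih => rw [pow_succ' (TR S ^ 2), mul_apply_eq_comp, h2, ih, pow_succ]; ring
  -- the hull lies in a closed half space
  have h4 : ∀ ε : ℝ, 0 ≤ ε * g y → ∀ z, 0 ≤ ε * g z := by
    intro ε hε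
    have hcl : IsClosed {z : X | 0 ≤ ε * g z} :=
      isClosed_le continuous_const (continuous_const.mul g.continuous)
    have hcv : Convex ℝ {z : X | 0 ≤ ε * g z} := by
      intro a ha b hb s t hs ht hst
      simp only [Set.mem_setOf_eq] at ha hb ⊢
      rw [map_add, map_smul, map_smul, smul_eq_mul, smul_eq_mul]
      nlinarith [mul_nonneg hs ha, mul_nonneg ht hb]
    have hsub : convexHull ℝ (Set.range fun n : ℕ => ((TR S ^ 2) ^ n) y) ⊆
        {z : X | 0 ≤ ε * g z} := by
      refine convexHull_min ?_ hcv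
      rintro _ ⟨n, rfl⟩
      simp only [Set.mem_setOf_eq]
      rw [h3]
      have : ε * (10000 ^ n * g y) = 10000 ^ n * (ε * g y) := by ring
      rw [this]
      positivity
    intro z
    exact (closure_minimal hsub hcl) (hy z)
  apply hg
  ext z
  rw [zero_apply]
  rcases le_total 0 (g y) with h | h
  · have a1 := h4 1 (by linarith) z
    have a2 := h4 1 (by linarith) (-z)
    rw [map_neg] at a2
    linarith
  · have a1 := h4 (-1) (by linarith) z
    have a2 := h4 (-1) (by linarith) (-z)
    rw [map_neg] at a2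
    linarith

lemma complex_case (X : Type*) [NormedAddCommGroup X] [NormedSpace ℂ X] [CompleteSpace X]
    [TopologicalSpace.SeparableSpace X] [Nontrivial X] :
    ∃ S : X →L[ℂ] X, ConvexCyclic S ∧ ¬ ConvexCyclic (S ^ 2) := by
  obtain ⟨S, x, g, hS, hg, hgS, hx⟩ := exists_cyclic_ker ℂ X
  have hcc : Pool.Agent.Y509.CCyc.CC (Pool.Agent.Y509.CCyc.TT S) x :=
    Pool.Agent.Y509.CCyc.cc_of_cyc hS x hx
  refine ⟨Pool.Agent.Y509.CCyc.TT S, ⟨x, hcc⟩, ?_⟩
  rintro ⟨y, hy⟩
  set T := Pool.Agent.Y509.CCyc.TT S with hT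
  have h1 : ∀ z, g (T z) = (10 * Complex.I) * g z := by
    intro z
    have : T z = (10 * Complex.I) • z + S z := rfl
    rw [this, map_add, map_smul, hgS, smul_eq_mul, add_zero]
  have h2 : ∀ z, g ((T ^ 2) z) = ((-100 : ℝ) : ℂ) * g z := by
    intro z
    rw [pow_two, mul_apply_eq_comp, h1, h1]
    have : (10 * Complex.I) * (10 * Complex.I * g z) = (Complex.I * Complex.I) * 100 * g z := by ring
    rw [this, Complex.I_mul_I]
    push_cast
    ring
  have h3 : ∀ n : ℕ, g (((T ^ 2) ^ n) y) = (((-100) ^ n : ℝ) : ℂ) * g y := by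
    intro n
    induction n with
    | zero => simp
    | succ n ih => rw [pow_succ' (T ^ 2), mul_apply_eq_comp, h2, ih]; push_cast; ring
  -- the hull lies in a closed real subspace
  have h4 : ∀ a : ℂ, (a * g y).im = 0 → ∀ z, (a * g z).im = 0 := by
    intro a ha
    have hcl : IsClosed {z : X | (a * g z).im = 0} :=
      isClosed_eq (Complex.continuous_im.comp (continuous_const.mul g.continuous)) continuous_const
    have hcv : Convex ℝ {z : X | (a * g z).im = 0} := by
      intro u hu v hv s t hs ht hst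
      simp only [Set.mem_setOf_eq] at hu hv ⊢
      have e : a * g (s • u + t • v) = ((s : ℝ) : ℂ) * (a * g u) + ((t : ℝ) : ℂ) * (a * g v) := by
        have e1 : s • u = ((s : ℝ) : ℂ) • u := (Complex.coe_smul s u).symm
        have e2 : t • v = ((t : ℝ) : ℂ) • v := (Complex.coe_smul t v).symm
        rw [e1, e2, map_add, map_smul, map_smul, smul_eq_mul, smul_eq_mul]
        ring
      rw [e, Complex.add_im, Complex.im_ofReal_mul, Complex.im_ofReal_mul, hu, hv]
      ring
    have hsub : convexHull ℝ (Set.range fun n : ℕ => ((T ^ 2) ^ n) y) ⊆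
        {z : X | (a * g z).im = 0} := by
      refine convexHull_min ?_ hcv
      rintro _ ⟨n, rfl⟩
      simp only [Set.mem_setOf_eq]
      rw [h3]
      have : a * ((((-100) ^ n : ℝ) : ℂ) * g y) = (((-100) ^ n : ℝ) : ℂ) * (a * g y) := by ring
      rw [this, Complex.im_ofReal_mul, ha, mul_zero]
    intro z
    exact (closure_minimal hsub hcl) (hy z)
  -- a point where `g` does not vanish
  obtain ⟨z, hz⟩ : ∃ z, g z ≠ 0 := by
    by_contra hcon
    push Not at hcon
    exact hg (by ext z; rw [hcon z, zero_apply])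
  by_cases hy0 : g y = 0
  · have a1 := h4 (Complex.I * (g z)⁻¹) (by rw [hy0]; simp) z
    rw [mul_assoc, inv_mul_cancel₀ hz, mul_one] at a1
    simp at a1
  · have a1 := h4 (g y)⁻¹ (by rw [inv_mul_cancel₀ hy0]; simp)
      ((Complex.I * g y * (g z)⁻¹) • z)
    rw [map_smul, smul_eq_mul, mul_assoc (Complex.I * g y), inv_mul_cancel₀ hz, mul_one,
      mul_comm Complex.I, ← mul_assoc, inv_mul_cancel₀ hy0, one_mul] at a1
    simp at a1

/-- Every nonzero separable real Banach space and every nonzero separable complex Banach space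
carries a convex-cyclic operator whose square is not convex-cyclic. -/
theorem result :
    (∀ (X : Type*) [NormedAddCommGroup X] [NormedSpace ℝ X] [CompleteSpace X]
      [TopologicalSpace.SeparableSpace X] [Nontrivial X],
      ∃ S : X →L[ℝ] X, ConvexCyclic S ∧ ¬ ConvexCyclic (S ^ 2)) ∧
    (∀ (X : Type*) [NormedAddCommGroup X] [NormedSpace ℂ X] [CompleteSpace X]
      [TopologicalSpace.SeparableSpace X] [Nontrivial X],
      ∃ S : X →L[ℂ] X, ConvexCyclic S ∧ ¬ ConvexCyclic (S ^ 2)) :=
  ⟨fun X => real_case X, fun X => complex_case X⟩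

end Pool.Agent.Results.MP_8292e8_an.EverySeparableSpace
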